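import Pool.Agent.W492.KC.Quas

/-!
# Kimura's finiteness conjecture, conservativity and the sign conjecture
-/

set_option linter.unusedSectionVars false

open CategoryTheory Limits MonoidalCategory Triangulated Pretriangulated

namespace Pool.Agent.Results.MP_868bb7_ag.ConservativityAndSign

open Pool.Agent.W492.KC

universe v u v' u'

theorem result {T : Type u} [Category.{v} T] [HasZeroObject T] [HasShift T ℤ] [Preadditive T]
    [∀ n : ℤ, (shiftFunctor T n).Additive] [Pretriangulated T] [IsTriangulated T]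
    [IsIdempotentComplete T]
    [MonoidalCategory T] [SymmetricCategory T] [RightRigidCategory T] [MonoidalPreadditive T]
    [∀ X : T, (tensorLeft X).CommShift ℤ] [∀ X : T, (tensorLeft X).IsTriangulated]
    {𝒜 : Type u'} [Category.{v'} 𝒜] [Abelian 𝒜] (H : T ⥤ 𝒜) [H.IsHomological]
    (W : ℤ → ObjectProperty 𝒜) (𝒞 : ObjectProperty T)
    {F : Type} [Field F] [CharZero F] [Linear F T] [MonoidalLinear F T]
    (hS : Setup H W 𝒞 F) :
    List.TFAE [
      Kimura 𝒞 ∧ HomEqNum H 𝒞,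
      Conservative H ∧ Sign H 𝒞,
      ChowConservative H 𝒞 ∧ Sign H 𝒞 ∧ HomEqNum H 𝒞,
      Nilp H 𝒞 ∧ Sign H 𝒞 ∧ HomEqNum H 𝒞] := by
  have hA : ∀ hK : Kimura 𝒞, Sign H 𝒞 ∧ Nilp H 𝒞 := fun hK =>
    ⟨sign_of_signSum (hS.sign_of_kimura hK), hS.nilp_of_kimura hK⟩
  have hCC : Conservative H → ChowConservative H 𝒞 := fun hc X Y _ _ f hf =>
    isIso_of_conservative hc hf
  tfae_have 2 → 1 := by
    rintro ⟨hc, hs⟩
    have hQ := quasi_of_chowConservative (hCC hc)
    have hss := hS.signSum' hQ hs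
    exact ⟨hS.kimura' hQ hss, hS.homEqNum hc hss⟩
  tfae_have 1 → 4 := fun h => ⟨(hA h.1).2, (hA h.1).1, h.2⟩
  tfae_have 4 → 3 := fun h => ⟨hS.chowConservative h.2.2 (quasi_of_nilp h.1), h.2⟩
  tfae_have 3 → 2 := fun h =>
    ⟨hS.conservative h.2.2 (quasi_of_chowConservative h.1), h.2.1⟩
  tfae_finish

end Pool.Agent.Results.MP_868bb7_ag.ConservativityAndSign
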